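import Pool.Agent.Lib_helper17.SepNum

set_option linter.unusedSectionVars false
set_option linter.unusedVariables false

namespace Pool.Agent.Results.MP_1e9518_pr.NoSepCutoff

open Filter Topology Finset
open scoped Classical

/-- `G` is vertex-transitive: any vertex is carried to any other by an automorphism. -/
def VertexTransitive {V : Type} (G : SimpleGraph V) : Prop :=
  ∀ x y : V, ∃ φ : G ≃g G, φ x = y

/-- Transition matrix of the lazy simple random walk on `G`: stay put with probability `1/2`,
otherwise move to a uniformly chosen neighbour. -/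
noncomputable def lazyWalk {V : Type} [Fintype V] (G : SimpleGraph V) : Matrix V V ℝ := fun x y =>
  1 / 2 * (if x = y then 1 else 0) +
    1 / 2 * (if G.Adj x y then 1 / (Nat.card (G.neighborSet x) : ℝ) else 0)

/-- The second largest eigenvalue of the lazy walk: entry number two in the list of the
eigenvalues (roots of the characteristic polynomial, with multiplicity) in decreasing order. -/
noncomputable def lam2 {V : Type} [Fintype V] (G : SimpleGraph V) : ℝ :=
  ((lazyWalk G).charpoly.roots.sort (· ≥ ·)).getD 1 0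

/-- Relaxation time. -/
noncomputable def tRel {V : Type} [Fintype V] (G : SimpleGraph V) : ℝ := 1 / (1 - lam2 G)

/-- Total variation distance between the law at time `t`, started at `x`, and the uniform law. -/
noncomputable def tvDist {V : Type} [Fintype V] (G : SimpleGraph V) (x : V) (t : ℕ) : ℝ :=
  1 / 2 * ∑ y, |(lazyWalk G ^ t) x y - 1 / (Fintype.card V : ℝ)|

/-- Total variation mixing time. -/
noncomputable def tMix {V : Type} [Fintype V] (G : SimpleGraph V) (x : V) (ε : ℝ) : ℕ :=
  sInf {t : ℕ | tvDist G x t ≤ ε}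

/-- Separation distance at time `t`, started at `x`. -/
noncomputable def sepDist {V : Type} [Fintype V] (G : SimpleGraph V) (x : V) (t : ℕ) : ℝ :=
  ⨆ y : V, (1 - (lazyWalk G ^ t) x y / (1 / (Fintype.card V : ℝ)))

/-- Separation mixing time. -/
noncomputable def tSep {V : Type} [Fintype V] (G : SimpleGraph V) (x : V) (ε : ℝ) : ℕ :=
  sInf {t : ℕ | sepDist G x t ≤ ε}

/-- The product condition `T_mix / T_rel → ∞`, where `T_mix = T_mix(1/4)`. -/
def ProductCondition (V : ℕ → Type) [∀ n, Fintype (V n)] (G : ∀ n, SimpleGraph (V n))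
    (x : ∀ n, V n) : Prop :=
  Tendsto (fun n => (tMix (G n) (x n) (1 / 4) : ℝ) / tRel (G n)) atTop atTop

/-- Separation cutoff: `T_sep(ε) / T_sep(1 - ε) → 1` for every fixed `ε ∈ (0, 1/2)`. -/
def SeparationCutoff (V : ℕ → Type) [∀ n, Fintype (V n)] (G : ∀ n, SimpleGraph (V n))
    (x : ∀ n, V n) : Prop :=
  ∀ ε : ℝ, 0 < ε → ε < 1 / 2 →
    Tendsto (fun n => (tSep (G n) (x n) ε : ℝ) / (tSep (G n) (x n) (1 - ε) : ℝ)) atTop (𝓝 1)

open Pool.Agent.Lib_helper17.Sep

section second

variable {V : Type} [Fintype V]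

lemma lam2_le_of (G : SimpleGraph V) (hP : (lazyWalk G).IsHermitian)
    (hrow : ∀ x, ∑ y, lazyWalk G x y = 1) (hcard : 1 < Fintype.card V) (c : ℝ) (hc : c < 1)
    (h : ∀ (f : V → ℝ) (μ : ℝ), f ≠ 0 → ∑ x, f x = 0 → (lazyWalk G).mulVec f = μ • f → μ ≤ c) :
    lam2 G ≤ c := by
  have hsym : ∀ x y, lazyWalk G x y = lazyWalk G y x := by
    intro x y
    have := hP.apply y x
    simpa using this
  have hcol : ∀ y, ∑ x, lazyWalk G x y = 1 := by
    intro y
    simp only [hsym _ y]
    exact hrow y
  have hlam : lam2 G = hP.eigenvalues₀ ⟨1, hcard⟩ := by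
    unfold lam2
    have h1 := hP.sort_roots_charpoly_eq_eigenvalues₀
    have h2 : (lazyWalk G).charpoly.roots.map (RCLike.re : ℝ → ℝ) = (lazyWalk G).charpoly.roots := by
      simp
    rw [h2] at h1
    rw [h1]
    simp [List.getD, hcard]
  rw [hlam]
  set e := (Fintype.equivOfCardEq (Fintype.card_fin (Fintype.card V)) : Fin (Fintype.card V) ≃ V)
    with he
  have hev : ∀ i, hP.eigenvalues (e i) = hP.eigenvalues₀ i := by
    intro i
    unfold Matrix.IsHermitian.eigenvalues
    rw [← he]
    simp
  set i0 : Fin (Fintype.card V) := ⟨0, by omega⟩ with hi0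
  set i1 : Fin (Fintype.card V) := ⟨1, hcard⟩ with hi1
  have hne : e i0 ≠ e i1 := by
    intro h1
    have := e.injective h1
    simp [hi0, hi1] at this
  have hle : hP.eigenvalues₀ i1 ≤ hP.eigenvalues₀ i0 :=
    hP.eigenvalues₀_antitone (by simp [hi0, hi1])
  set b0 : V → ℝ := ⇑(hP.eigenvectorBasis (e i0)) with hb0
  set b1 : V → ℝ := ⇑(hP.eigenvectorBasis (e i1)) with hb1
  have hm0 : (lazyWalk G).mulVec b0 = hP.eigenvalues₀ i0 • b0 := by
    rw [← hev]; exact hP.mulVec_eigenvectorBasis (e i0)
  have hm1 : (lazyWalk G).mulVec b1 = hP.eigenvalues₀ i1 • b1 := by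
    rw [← hev]; exact hP.mulVec_eigenvectorBasis (e i1)
  have hn0 : b0 ≠ 0 := by
    intro h1
    have h2 : hP.eigenvectorBasis (e i0) = 0 := by
      ext v
      have := congrFun h1 v
      simpa [hb0] using this
    have := hP.eigenvectorBasis.orthonormal.ne_zero (e i0)
    exact this h2
  have hn1 : b1 ≠ 0 := by
    intro h1
    have h2 : hP.eigenvectorBasis (e i1) = 0 := by
      ext v
      have := congrFun h1 v
      simpa [hb1] using this
    have := hP.eigenvectorBasis.orthonormal.ne_zero (e i1)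
    exact this h2
  have horth : ∑ x, b0 x * b1 x = 0 := by
    have h1 : inner ℝ (hP.eigenvectorBasis (e i0)) (hP.eigenvectorBasis (e i1)) = 0 :=
      hP.eigenvectorBasis.orthonormal.2 hne
    rw [PiLp.inner_apply] at h1
    simp only [RCLike.inner_apply, conj_trivial] at h1
    rw [← h1]
    apply Finset.sum_congr rfl
    intro x _
    simp [hb0, hb1, mul_comm]
  -- eigenvectors for eigenvalues other than one sum to zero
  have hsum : ∀ (f : V → ℝ) (μ : ℝ), (lazyWalk G).mulVec f = μ • f → μ ≠ 1 → ∑ x, f x = 0 := by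
    intro f μ hf hμ
    have h1 : ∑ x, (lazyWalk G).mulVec f x = ∑ x, f x := by
      simp only [Matrix.mulVec, dotProduct]
      rw [Finset.sum_comm]
      apply Finset.sum_congr rfl
      intro y _
      rw [← Finset.sum_mul, hcol, one_mul]
    rw [hf] at h1
    simp only [Pi.smul_apply, smul_eq_mul, ← Finset.mul_sum] at h1
    have h2 : (μ - 1) * ∑ x, f x = 0 := by linarith
    exact (mul_eq_zero.mp h2).resolve_left (sub_ne_zero.mpr hμ)
  by_cases h1 : hP.eigenvalues₀ i1 = 1
  · exfalso
    by_cases h0 : hP.eigenvalues₀ i0 = 1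
    · rw [h0, one_smul] at hm0
      rw [h1, one_smul] at hm1
      set s0 := ∑ x, b0 x
      set s1 := ∑ x, b1 x
      by_cases hs : s0 = 0
      · have := h b0 1 hn0 hs (by rw [one_smul]; exact hm0)
        linarith
      · set f : V → ℝ := s1 • b0 - s0 • b1 with hf
        have hf0 : f ≠ 0 := by
          intro h2
          have h3 : ∑ x, f x * b1 x = 0 := by
            rw [h2]; simp
          simp only [hf, Pi.sub_apply, Pi.smul_apply, smul_eq_mul, sub_mul,
            Finset.sum_sub_distrib, mul_assoc, ← Finset.mul_sum] at h3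
          rw [horth, mul_zero, zero_sub, neg_eq_zero] at h3
          rcases mul_eq_zero.mp h3 with h4 | h4
          · exact hs h4
          · apply hn1
            funext x
            have h5 := (Finset.sum_eq_zero_iff_of_nonneg
              (fun x _ => mul_self_nonneg (b1 x))).mp h4 x (Finset.mem_univ x)
            exact mul_self_eq_zero.mp h5
        have := h f 1 hf0 (by
          simp only [hf, Pi.sub_apply, Pi.smul_apply, smul_eq_mul, Finset.sum_sub_distrib,
            ← Finset.mul_sum]
          ring) (by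
          rw [one_smul, hf, Matrix.mulVec_sub, Matrix.mulVec_smul, Matrix.mulVec_smul, hm0, hm1])
        linarith
    · have h2 := h b0 _ hn0 (hsum b0 _ hm0 h0) hm0
      linarith
  · exact h b1 _ hn1 (hsum b1 _ hm1 h1) hm1

end second

section example_graph

variable {A : Type} [AddCommGroup A] [Fintype A] [dA : DecidableEq A]

/-- the Cayley graph with symmetric connection set `C`, `0 ∉ C` -/
def cay (C : Finset A) (hneg : ∀ c, c ∈ C → -c ∈ C) (h0 : (0 : A) ∉ C) : SimpleGraph A where
  Adj x y := y - x ∈ C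
  symm := ⟨fun x y h => by
    have := hneg _ h
    rwa [neg_sub] at this⟩
  loopless := ⟨fun x h => h0 (by simpa using h)⟩

variable (C : Finset A) (hneg : ∀ c, c ∈ C → -c ∈ C) (h0 : (0 : A) ∉ C)

lemma cay_transitive : VertexTransitive (cay C hneg h0) := by
  intro x y
  refine ⟨⟨Equiv.addRight (y - x), ?_⟩, ?_⟩
  · intro a b
    change (b + (y - x)) - (a + (y - x)) ∈ C ↔ b - a ∈ C
    rw [add_sub_add_right_eq_sub]
  · simp

lemma cay_card (x : A) : Nat.card ((cay C hneg h0).neighborSet x) = C.card := by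
  have h1 : (cay C hneg h0).neighborSet x = ((C.image (fun c => x + c) : Finset A) : Set A) := by
    ext y
    simp only [SimpleGraph.mem_neighborSet, cay, Finset.coe_image, Set.mem_image,
      Finset.mem_coe]
    constructor
    · intro h
      exact ⟨y - x, h, by abel⟩
    · rintro ⟨c, hc, rfl⟩
      simpa using hc
  rw [h1, Nat.card_coe_set_eq, Set.ncard_coe_finset, Finset.card_image_of_injective]
  intro a b hab
  simpa using hab

lemma cay_walk : lazyWalk (cay C hneg h0) = walk C := by
  funext x y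
  unfold lazyWalk walk
  rw [cay_card]
  have h1 : (if x = y then (1 : ℝ) else 0) =
      @ite ℝ (x = y) (Classical.propDecidable (x = y)) 1 0 := by congr
  have h2 : (cay C hneg h0).Adj x y ↔ y - x ∈ C := Iff.rfl
  by_cases h3 : y - x ∈ C
  · rw [if_pos (h2.mpr h3), if_pos h3, ← h1]
  · rw [if_neg (fun h => h3 (h2.mp h)), if_neg h3, ← h1]

lemma cay_pow (t : ℕ) (x y : A) : (lazyWalk (cay C hneg h0) ^ t) x y = mu C t (y - x) := by
  rw [cay_walk, walk_pow]

lemma cay_tv (x : A) (t : ℕ) : tvDist (cay C hneg h0) x t = tv C t := by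
  obtain rfl : dA = fun a b => Classical.propDecidable (a = b) := Subsingleton.elim _ _
  unfold tvDist tv
  congr 1
  simp only [cay_pow]
  exact Equiv.sum_comp (Equiv.subRight x) (fun z => |mu C t z - 1 / (Fintype.card A : ℝ)|)

lemma cay_sep_le (x : A) (t : ℕ) (ε : ℝ)
    (h : ∀ p, 1 - ε ≤ (Fintype.card A : ℝ) * mu C t p) : sepDist (cay C hneg h0) x t ≤ ε := by
  obtain rfl : dA = fun a b => Classical.propDecidable (a = b) := Subsingleton.elim _ _
  unfold sepDist
  apply ciSup_le
  intro y
  rw [cay_pow, div_div_eq_mul_div, div_one]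
  have := h (y - x)
  linarith

lemma cay_sep_ge (x : A) (t : ℕ) (p : A) :
    1 - (Fintype.card A : ℝ) * mu C t p ≤ sepDist (cay C hneg h0) x t := by
  obtain rfl : dA = fun a b => Classical.propDecidable (a = b) := Subsingleton.elim _ _
  unfold sepDist
  refine le_trans (le_of_eq ?_) (le_ciSup (Set.finite_range _).bddAbove (x + p))
  rw [cay_pow, div_div_eq_mul_div, div_one]
  have : x + p - x = p := by abel
  rw [this]
  ring

lemma cay_reach (t : ℕ) (x z : A) (h : mu C t z ≠ 0) : (cay C hneg h0).Reachable x (x + z) := by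
  induction t generalizing z with
  | zero =>
    simp only [mu] at h
    have : z = 0 := by
      by_contra h1
      simp [h1] at h
    subst this
    rw [add_zero]
  | succ t ih =>
    simp only [mu] at h
    by_cases h1 : mu C t z = 0
    · rw [h1, mul_zero, zero_add] at h
      have h2 : ∑ c ∈ C, mu C t (z - c) ≠ 0 := by
        intro h3
        rw [h3, mul_zero] at h
        exact h rfl
      obtain ⟨c, hc, h3⟩ := Finset.exists_ne_zero_of_sum_ne_zero h2
      have h4 := ih (z - c) h3
      refine h4.trans (SimpleGraph.Adj.reachable ?_)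
      change x + z - (x + (z - c)) ∈ C
      have : x + z - (x + (z - c)) = c := by abel
      rw [this]
      exact hc
    · exact ih z h1

lemma cay_hermitian : (lazyWalk (cay C hneg h0)).IsHermitian := by
  rw [cay_walk]
  apply Matrix.IsHermitian.ext
  intro x y
  simp only [walk, star_trivial]
  have h1 : (x - y ∈ C) ↔ (y - x ∈ C) := by
    constructor
    · intro h
      have := hneg _ h
      rwa [neg_sub] at this
    · intro h
      have := hneg _ h
      rwa [neg_sub] at this
  simp only [h1, eq_comm]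

lemma walk_mulVec (f : A → ℝ) (x : A) :
    (walk C).mulVec f x = 1 / 2 * f x + 1 / (2 * (C.card : ℝ)) * ∑ c ∈ C, f (x + c) := by
  simp only [Matrix.mulVec, dotProduct, walk, add_mul, Finset.sum_add_distrib]
  congr 1
  · rw [Finset.sum_eq_single x]
    · simp
    · intro b _ hb
      simp [hb.symm]
    · simp
  · rw [Finset.mul_sum]
    rw [← Finset.sum_subset (Finset.subset_univ (C.image (fun c => x + c)))]
    · rw [Finset.sum_image]
      · apply Finset.sum_congr rfl
        intro c hc
        have h1 : x + c - x = c := by abel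
        rw [h1, if_pos hc]
        have h3 : (C.card : ℝ) ≠ 0 := by
          have : 0 < C.card := Finset.card_pos.mpr ⟨c, hc⟩
          positivity
        field_simp
      · intro a _ b _ hab
        simpa using hab
    · intro z _ hz
      have : z - x ∉ C := by
        intro h
        apply hz
        rw [Finset.mem_image]
        exact ⟨z - x, h, by abel⟩
      simp [this]

lemma cay_row (hC : C.Nonempty) (x : A) : ∑ y, lazyWalk (cay C hneg h0) x y = 1 := by
  rw [cay_walk]
  have h1 := walk_mulVec C (fun _ => 1) x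
  simp only [Matrix.mulVec, dotProduct, mul_one, Finset.sum_const, nsmul_eq_mul] at h1
  rw [h1]
  have : 0 < C.card := Finset.card_pos.mpr hC
  have h3 : (C.card : ℝ) ≠ 0 := by positivity
  field_simp
  norm_num

end example_graph

section pack

variable {K L : Type} [AddCommGroup K] [AddCommGroup L] [Fintype K] [Fintype L]
  [DecidableEq K] [DecidableEq L] (S : Finset K) (j0 : L) (hg : Good S j0)
  (hneg : ∀ c, c ∈ conn S j0 → -c ∈ conn S j0) (h0 : (0 : K × L) ∉ conn S j0)

include hg

lemma GG_connected : (cay (conn S j0) hneg h0).Connected := by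
  obtain ⟨t, ht⟩ := sep_up' hg
  have hr : ∀ x y, (cay (conn S j0) hneg h0).Reachable x y := by
    intro x y
    have h1 := ht (y - x)
    have h2 : mu (conn S j0) t (y - x) ≠ 0 := by
      intro h3
      rw [h3, mul_zero] at h1
      norm_num at h1
    have h3 := cay_reach (conn S j0) hneg h0 t x (y - x) h2
    have h4 : x + (y - x) = y := by abel
    rw [h4] at h3
    exact h3
  have : Nonempty (K × L) := ⟨0⟩
  exact ⟨hr⟩

lemma lam2_GG (hgap : Gap S) (hL : 5 ≤ Fintype.card L) :
    lam2 (cay (conn S j0) hneg h0) ≤ 3 / 4 := by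
  have hCne : (conn S j0).Nonempty := conn_nonempty _ _
  have hP := cay_hermitian (conn S j0) hneg h0
  apply lam2_le_of (cay (conn S j0) hneg h0) hP (cay_row (conn S j0) hneg h0 hCne)
  · rw [Fintype.card_prod]
    have h1 : 0 < Fintype.card K := Fintype.card_pos
    nlinarith
  · norm_num
  · intro f μ hf hsum hmul
    rw [cay_walk] at hmul
    have hD : (0 : ℝ) < Dt S j0 := Dt_pos _ _
    have hDc : Dt S j0 = ((conn S j0).card : ℝ) := rfl
    have hfx : ∃ p, f p ≠ 0 := Function.ne_iff.mp hf
    have key := eigen_bound S j0 hgap hL (by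
      have := hg.small
      linarith) f hfx hsum ((2 * μ - 1) * Dt S j0) (by
      intro p
      have h1 := congrFun hmul p
      rw [walk_mulVec, ← hDc] at h1
      simp only [Pi.smul_apply, smul_eq_mul] at h1
      have h2 : 1 / (2 * Dt S j0) * ∑ c ∈ conn S j0, f (p + c)
        = (μ - 1 / 2) * f p := by linarith
      have h3 : ∑ c ∈ conn S j0, f (p + c) = (2 * Dt S j0) *
        (1 / (2 * Dt S j0) * ∑ c ∈ conn S j0, f (p + c)) := by
        field_simp
      rw [h3, h2]
      ring)
    have h4 : (2 * μ - 1) ≤ 1 / 2 := by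
      by_contra hcon
      push Not at hcon
      nlinarith
    linarith

lemma tMix_ge (x : K × L) :
    1 / del S j0 ≤ (tMix (cay (conn S j0) hneg h0) x (1 / 4) : ℝ) := by
  by_contra hcon
  push Not at hcon
  have h2 := tv_low hg (tMix (cay (conn S j0) hneg h0) x (1 / 4)) hcon.le
  have hne : {t : ℕ | tvDist (cay (conn S j0) hneg h0) x t ≤ 1 / 4}.Nonempty := by
    obtain ⟨t, ht⟩ := sep_up' hg
    refine ⟨t, ?_⟩
    have h3 := tv_upper (conn S j0) (conn_nonempty _ _) t (1 / 4) (by norm_num) (by
      intro p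
      have := ht p
      linarith)
    change tvDist (cay (conn S j0) hneg h0) x t ≤ 1 / 4
    rw [cay_tv]
    exact h3
  have h4 := Nat.sInf_mem hne
  change tvDist (cay (conn S j0) hneg h0) x (tMix (cay (conn S j0) hneg h0) x (1 / 4)) ≤ 1 / 4 at h4
  rw [cay_tv] at h4
  linarith

lemma tSep_ge (x : K × L) :
    3 / 2 / del S j0 ≤ (tSep (cay (conn S j0) hneg h0) x (1 / 4) : ℝ) := by
  by_contra hcon
  push Not at hcon
  obtain ⟨p, hp⟩ := sep_low hg (tSep (cay (conn S j0) hneg h0) x (1 / 4)) hcon
  have hne : {t : ℕ | sepDist (cay (conn S j0) hneg h0) x t ≤ 1 / 4}.Nonempty := by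
    obtain ⟨t, ht⟩ := sep_up' hg
    refine ⟨t, ?_⟩
    apply cay_sep_le (conn S j0) hneg h0
    intro p
    have := ht p
    linarith
  have h4 := Nat.sInf_mem hne
  change sepDist (cay (conn S j0) hneg h0) x (tSep (cay (conn S j0) hneg h0) x (1 / 4)) ≤ 1 / 4
    at h4
  have h5 := cay_sep_ge (conn S j0) hneg h0 x (tSep (cay (conn S j0) hneg h0) x (1 / 4)) p
  linarith

lemma tSep_le (x : K × L) :
    (tSep (cay (conn S j0) hneg h0) x (3 / 4) : ℝ) ≤ 1 / del S j0 + 4 := by
  have hd := del_pos S j0
  have h1 : tSep (cay (conn S j0) hneg h0) x (3 / 4) ≤ ⌈1 / del S j0⌉₊ + 3 := by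
    apply Nat.sInf_le
    apply cay_sep_le (conn S j0) hneg h0
    intro p
    have := sep_up hg p
    linarith
  have h2 : (⌈1 / del S j0⌉₊ : ℝ) < 1 / del S j0 + 1 :=
    Nat.ceil_lt_add_one (by positivity)
  have h3 : (tSep (cay (conn S j0) hneg h0) x (3 / 4) : ℝ) ≤ ((⌈1 / del S j0⌉₊ + 3 : ℕ) : ℝ) := by
    exact_mod_cast h1
  push_cast at h3
  linarith

lemma tSep_pos (hN : 1 < Fintype.card K) (x : K × L) :
    0 < tSep (cay (conn S j0) hneg h0) x (3 / 4) := by
  rw [Nat.pos_iff_ne_zero]
  intro hz
  have hne : {t : ℕ | sepDist (cay (conn S j0) hneg h0) x t ≤ 3 / 4}.Nonempty := by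
    refine ⟨_, cay_sep_le (conn S j0) hneg h0 x
      (⌈1 / del S j0⌉₊ + 3) (3 / 4) ?_⟩
    intro p
    have := sep_up hg p
    linarith
  have h4 := Nat.sInf_mem hne
  change sepDist (cay (conn S j0) hneg h0) x (tSep (cay (conn S j0) hneg h0) x (3 / 4)) ≤ 3 / 4
    at h4
  rw [hz] at h4
  obtain ⟨p, hp⟩ := sep_zero S j0 hN
  have h5 := cay_sep_ge (conn S j0) hneg h0 x 0 p
  linarith

end pack

/-- the examples, one for each `n` -/
lemma exists_graph (n : ℕ) : ∃ (V : Type) (_ : Fintype V) (G : SimpleGraph V) (T : ℝ),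
    n ≤ Fintype.card V ∧ G.Connected ∧ VertexTransitive G ∧ (2 : ℝ) ^ n ≤ T ∧ 128 ≤ T ∧
    lam2 G ≤ 3 / 4 ∧ ∀ x : V, T ≤ (tMix G x (1 / 4) : ℝ) ∧
      3 / 2 * T ≤ (tSep G x (1 / 4) : ℝ) ∧ (tSep G x (3 / 4) : ℝ) ≤ T + 4 ∧
      0 < tSep G x (3 / 4) := by
  obtain ⟨D, k, hp⟩ : ∃ D k, Par D k (n + 10) := ⟨_, _, par n⟩
  have hkg := hp.k_ge
  have hDg := hp.D_ge
  have hneg1 : ∀ c : KK D × LL k, -c = c := by
    intro c
    have h : c + c = 0 := by
      ext1
      · exact add_self_zero c.1
      · exact add_self_zero c.2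
    exact neg_eq_of_add_eq_zero_left h
  have hneg : ∀ c, c ∈ conn (S1 D) (jj k) → -c ∈ conn (S1 D) (jj k) := by
    intro c hc
    rw [hneg1]; exact hc
  have h0 : (0 : KK D × LL k) ∉ conn (S1 D) (jj k) := by
    unfold conn
    rw [Finset.mem_union, not_or]
    constructor
    · intro h
      rw [Finset.mem_product] at h
      exact zero_not_mem_S1 _ h.1
    · intro h
      rw [Finset.mem_product, Finset.mem_singleton] at h
      exact jj_ne_zero (by omega) h.2.symm
  have hk2 : k < 2 ^ k := Nat.lt_two_pow_self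
  have hD2 : D * D < 2 ^ (D * D) := Nat.lt_two_pow_self
  have hDD : D ≤ D * D := Nat.le_mul_of_pos_left _ (by omega)
  have hs := hp.good.small
  have hd := del_pos (S1 D) (jj k)
  refine ⟨KK D × LL k, inferInstance, cay (conn (S1 D) (jj k)) hneg h0,
    1 / del (S1 D) (jj k), ?_, GG_connected _ _ hp.good hneg h0, cay_transitive _ hneg h0, ?_, ?_,
    lam2_GG _ _ hp.good hneg h0 (gap_S1 D) (by rw [card_LL]; omega), ?_⟩
  · rw [Fintype.card_prod, card_KK, card_LL]
    have h1 : n ≤ D := by
      have h3 : n < 2 ^ n := Nat.lt_two_pow_self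
      have h4 : 2 ^ n ≤ 2 ^ (n + 10) := Nat.pow_le_pow_right (by norm_num) (by omega)
      have h5 := hp.hD
      omega
    calc n ≤ 2 ^ (D * D) := by omega
      _ = 2 ^ (D * D) * 1 := by ring
      _ ≤ 2 ^ (D * D) * 2 ^ k := Nat.mul_le_mul_left _ (by omega)
  · have h1 := hp.inv_del_ge
    have h2 : (2 : ℝ) ^ n ≤ 2 ^ (n + 10) / 8 := by
      rw [pow_add]
      have : (0 : ℝ) < 2 ^ n := by positivity
      norm_num
      linarith
    linarith
  · rw [le_div_iff₀ hd]; linarith
  · intro x
    refine ⟨tMix_ge _ _ hp.good hneg h0 x, ?_, tSep_le _ _ hp.good hneg h0 x,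
      tSep_pos _ _ hp.good hneg h0 (by rw [card_KK]; omega) x⟩
    have h1 := tSep_ge _ _ hp.good hneg h0 x
    have h2 : 3 / 2 / del (S1 D) (jj k) = 3 / 2 * (1 / del (S1 D) (jj k)) := by ring
    rw [h2] at h1
    exact h1

/-- There is a sequence of finite connected vertex-transitive graphs, with number of vertices
tending to infinity, which satisfies the product condition but has no separation cutoff. -/
theorem result :
    ∃ (V : ℕ → Type) (_ : ∀ n, Fintype (V n)) (G : ∀ n, SimpleGraph (V n)),
      (∀ n, (G n).Connected) ∧ (∀ n, VertexTransitive (G n)) ∧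
      Tendsto (fun n => Fintype.card (V n)) atTop atTop ∧
      ∀ x : ∀ n, V n, ProductCondition V G x ∧ ¬ SeparationCutoff V G x := by
  choose V hV G T hcard hconn htrans hT hT128 hlam hall using exists_graph
  refine ⟨V, hV, G, hconn, htrans, tendsto_atTop_mono hcard tendsto_id, ?_⟩
  intro x
  constructor
  · unfold ProductCondition
    have h1 : ∀ n, (2 : ℝ) ^ n / 4 ≤ (tMix (G n) (x n) (1 / 4) : ℝ) / tRel (G n) := by
      intro n
      have h2 := (hall n (x n)).1
      have h3 := hlam n
      have h5 := hT n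
      unfold tRel
      rw [div_div_eq_mul_div, div_one]
      have h4 : (0 : ℝ) < 2 ^ n := by positivity
      nlinarith
    refine tendsto_atTop_mono h1 ?_
    exact (tendsto_pow_atTop_atTop_of_one_lt (by norm_num : (1 : ℝ) < 2)).atTop_div_const
      (by norm_num)
  · intro hcut
    have h1 := hcut (1 / 4) (by norm_num) (by norm_num)
    have h2 : ∀ n, (7 / 5 : ℝ) ≤ (tSep (G n) (x n) (1 / 4) : ℝ) /
        (tSep (G n) (x n) (1 - 1 / 4) : ℝ) := by
      intro n
      have h3 : (1 : ℝ) - 1 / 4 = 3 / 4 := by norm_num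
      rw [h3]
      have hpos : (0 : ℝ) < (tSep (G n) (x n) (3 / 4) : ℝ) := by
        exact_mod_cast (hall n (x n)).2.2.2
      rw [le_div_iff₀ hpos]
      have h4 := (hall n (x n)).2.1
      have h5 := (hall n (x n)).2.2.1
      have h6 := hT128 n
      linarith
    have h3 := ge_of_tendsto' h1 h2
    norm_num at h3

end Pool.Agent.Results.MP_1e9518_pr.NoSepCutoff
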